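import Mathlib
import Pool.Agent.H638R2.Interp

set_option autoImplicit false

/-!
# Integer roots of programs with free products and coercive gates
-/

open Polynomial

namespace Pool.Agent.W920.Tau

open Pool.Agent.H638R2.Interp

/-- `h` is coercive with constant `H`: at integer points, every argument is at most the absolute
value of `h` plus `H`. -/
def Coercive {m : ℕ} (H : ℕ) (h : MvPolynomial (Fin m) ℤ) : Prop :=
  ∀ (t : Fin m → ℤ) (r : Fin m), |t r| ≤ |MvPolynomial.eval t h| + H

theorem natDegree_aeval_le {m : ℕ} (f : Fin m → ℤ[X]) (h : MvPolynomial (Fin m) ℤ) (D : ℕ)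
    (hD : ∀ r, (f r).natDegree ≤ D) :
    (MvPolynomial.aeval f h).natDegree ≤ h.totalDegree * D := by
  rw [MvPolynomial.aeval_def, MvPolynomial.eval₂_eq']
  refine natDegree_sum_le_of_forall_le _ _ fun d hd => ?_
  refine (natDegree_C_mul_le _ _).trans ?_
  refine (natDegree_prod_le _ _).trans ?_
  calc ∑ i, (f i ^ d i).natDegree ≤ ∑ i, d i * D := by
        refine Finset.sum_le_sum fun i _ => ?_
        exact natDegree_pow_le.trans (Nat.mul_le_mul_left _ (hD i))
    _ = (∑ i, d i) * D := by rw [Finset.sum_mul]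
    _ ≤ h.totalDegree * D := by
        refine Nat.mul_le_mul_right _ ?_
        have h1 := MvPolynomial.le_totalDegree hd
        rwa [Finsupp.sum_fintype _ _ (fun _ => rfl)] at h1

theorem two_pow_le_factorial {D : ℕ} (hD : 10 ≤ D) : 2 ^ (2 * D + 1) ≤ D.factorial := by
  induction D, hD using Nat.le_induction with
  | base => decide
  | succ D hD ih =>
    rw [Nat.factorial_succ]
    have : 2 ^ (2 * (D + 1) + 1) = 4 * 2 ^ (2 * D + 1) := by ring
    rw [this]
    exact Nat.mul_le_mul (by omega) ih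

/-- The programs: `p 0, …, p (n - 1)` with free products and constants; the steps in `A` are
arbitrary linear polynomials or coercive gates. -/
def IsProg (n e H : ℕ) (A : Finset ℕ) (p : ℕ → ℤ[X]) : Prop :=
  ∀ i < n, p i = X ∨ (∃ c : ℤ, p i = C c) ∨ (∃ j < i, ∃ k < i, p i = p j * p k) ∨
    (i ∈ A ∧ ((∃ a b : ℤ, p i = C a * X + C b) ∨
      ∃ (m : ℕ) (σ : Fin m → ℕ) (h : MvPolynomial (Fin m) ℤ), (∀ r, σ r < i) ∧
        h.totalDegree ≤ e ∧ Coercive H h ∧ p i = MvPolynomial.aeval (fun r => p (σ r)) h))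

section

variable {n e H : ℕ} {A : Finset ℕ} {p : ℕ → ℤ[X]}

open Classical in
/-- The roots at which `p k` is the first nonzero polynomial to vanish. -/
noncomputable def Z (p : ℕ → ℤ[X]) (k : ℕ) : Finset ℤ :=
  (p k).roots.toFinset.filter fun x => ∀ j < k, p j ≠ 0 → (p j).eval x ≠ 0

theorem mem_Z {k : ℕ} {x : ℤ} :
    x ∈ Z p k ↔ (p k ≠ 0 ∧ (p k).eval x = 0) ∧ ∀ j < k, p j ≠ 0 → (p j).eval x ≠ 0 := by
  classical
  unfold Z
  rw [Finset.mem_filter, Multiset.mem_toFinset, mem_roots']
  rfl

theorem exists_mem_Z {i : ℕ} {x : ℤ} (hi : p i ≠ 0) (hx : (p i).eval x = 0) :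
    ∃ k ≤ i, x ∈ Z p k := by
  classical
  have hex : ∃ k, p k ≠ 0 ∧ (p k).eval x = 0 := ⟨i, hi, hx⟩
  refine ⟨Nat.find hex, Nat.find_min' hex ⟨hi, hx⟩, mem_Z.2 ⟨Nat.find_spec hex, ?_⟩⟩
  intro j hj hj0 hj1
  exact Nat.find_min hex hj ⟨hj0, hj1⟩

theorem eq_zero_or_mem (hp : IsProg n e H A p) {k : ℕ} (hk : k < n) {x : ℤ} (hx : x ∈ Z p k) :
    x = 0 ∨ k ∈ A := by
  rw [mem_Z] at hx
  obtain ⟨⟨h0, h1⟩, h2⟩ := hx
  rcases hp k hk with h | ⟨c, h⟩ | ⟨a, ha, b, hb, h⟩ | ⟨h, -⟩
  · left; rw [h, eval_X] at h1; exact h1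
  · exfalso
    rw [h, eval_C] at h1
    rw [h, h1, C_0] at h0
    exact h0 rfl
  · exfalso
    have ha0 : p a ≠ 0 := by rintro h'; rw [h, h', zero_mul] at h0; exact h0 rfl
    have hb0 : p b ≠ 0 := by rintro h'; rw [h, h', mul_zero] at h0; exact h0 rfl
    rw [h, eval_mul, mul_eq_zero] at h1
    rcases h1 with h1 | h1
    · exact h2 a ha ha0 h1
    · exact h2 b hb hb0 h1
  · right; exact h

theorem card_Z_le (hp : IsProg n e H A p) {k : ℕ} (hk : k < n) :
    (Z p k).card ≤ max 2 e * max 9 (Nat.log 2 (A.card * H)) := by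
  classical
  set N := (Z p k).card with hN
  rcases Nat.lt_or_ge N 2 with hN2 | hN2
  · calc N ≤ 2 * 9 := by omega
      _ ≤ _ := Nat.mul_le_mul (le_max_left _ _) (le_max_left _ _)
  -- `p k` has degree at least `N`
  have hkdeg : N ≤ (p k).natDegree := by
    have h1 : Z p k ⊆ (p k).roots.toFinset := Finset.filter_subset _ _
    exact (Finset.card_le_card h1).trans ((Multiset.toFinset_card_le _).trans (card_roots' _))
  let cnt : ℕ → ℕ := fun j => (A.filter fun a => j < a ∧ a ≤ k).card
  have hcntA : ∀ j, cnt j ≤ A.card := fun j => Finset.card_le_card (Finset.filter_subset _ _)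
  have hcnt : ∀ l j, l ≤ j → cnt j ≤ cnt l := by
    intro l j hlj
    apply Finset.card_le_card
    intro a ha
    rw [Finset.mem_filter] at ha ⊢
    exact ⟨ha.1, by omega, ha.2.2⟩
  have hcnt' : ∀ l j, l < j → j ≤ k → j ∈ A → cnt j + 1 ≤ cnt l := by
    intro l j hlj hjk hjA
    have h1 : insert j (A.filter fun a => j < a ∧ a ≤ k) ⊆ A.filter fun a => l < a ∧ a ≤ k := by
      intro a ha
      rcases Finset.mem_insert.1 ha with rfl | ha
      · exact Finset.mem_filter.2 ⟨hjA, hlj, hjk⟩
      · rw [Finset.mem_filter] at ha ⊢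
        exact ⟨ha.1, by omega, ha.2.2⟩
    have h2 := Finset.card_le_card h1
    rw [Finset.card_insert_of_notMem (by simp)] at h2
    exact h2
  let Ctrl : ℕ → Prop := fun j => j ≤ k ∧ ∀ x ∈ Z p k, |(p j).eval x| ≤ (H : ℤ) * cnt j
  have hex : ∃ j, Ctrl j ∧ N ≤ (p j).natDegree := by
    refine ⟨k, ⟨le_rfl, fun x hx => ?_⟩, hkdeg⟩
    rw [(mem_Z.1 hx).1.2, abs_zero]
    positivity
  obtain ⟨⟨hjk, hjv⟩, hjdeg⟩ := Nat.find_spec hex
  have hmin := fun l (hl : l < Nat.find hex) => Nat.find_min hex hl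
  set j := Nat.find hex with hj
  have hj0 : p j ≠ 0 := by
    rintro h
    rw [h, natDegree_zero] at hjdeg
    omega
  -- the final step
  have final : ∀ l, Ctrl l → (p l).natDegree < N → N ≤ max 2 e * (p l).natDegree →
      N ≤ max 2 e * max 9 (Nat.log 2 (A.card * H)) := by
    intro l hl hlN hNl
    refine hNl.trans (Nat.mul_le_mul_left _ ?_)
    set D := (p l).natDegree with hD
    rcases Nat.lt_or_ge D 10 with hD10 | hD10
    · exact le_max_of_le_left (by omega)
    have hl0 : p l ≠ 0 := by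
      rintro h
      rw [hD, h, natDegree_zero] at hD10
      omega
    obtain ⟨x, hx, hxx⟩ := exists_large_value hl0 (X := Z p k) (by omega)
    have h1 := hl.2 x hx
    have h2 : (D.factorial : ℤ) ≤ 2 ^ D * ((H : ℤ) * cnt l) :=
      hxx.trans (mul_le_mul_of_nonneg_left h1 (by positivity))
    have h3 : D.factorial ≤ 2 ^ D * (A.card * H) := by
      have h4 : D.factorial ≤ 2 ^ D * (H * cnt l) := by exact_mod_cast h2
      refine h4.trans (Nat.mul_le_mul_left _ ?_)
      rw [mul_comm]
      exact Nat.mul_le_mul_right _ (hcntA l)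
    have h5 := (two_pow_le_factorial hD10).trans h3
    have h6 : 2 ^ (2 * D + 1) = 2 ^ D * 2 ^ (D + 1) := by ring
    rw [h6] at h5
    have h7 := Nat.le_of_mul_le_mul_left h5 (by positivity)
    have h8 : D + 1 ≤ Nat.log 2 (A.card * H) := by
      apply Nat.le_log_of_pow_le (by norm_num) h7
    exact le_max_of_le_right (by omega)
  rcases hp j (lt_of_le_of_lt hjk hk) with h | ⟨c, h⟩ | ⟨a, ha, b, hb, h⟩ |
      ⟨hjA, ⟨a, b, h⟩ | ⟨m, σ, h, hσ, hdeg, hco, hpj⟩⟩
  · rw [h, natDegree_X] at hjdeg; omega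
  · rw [h, natDegree_C] at hjdeg; omega
  · have ha0 : p a ≠ 0 := by rintro h'; rw [h, h', zero_mul] at hj0; exact hj0 rfl
    have hb0 : p b ≠ 0 := by rintro h'; rw [h, h', mul_zero] at hj0; exact hj0 rfl
    have hCa : Ctrl a := by
      refine ⟨by omega, fun x hx => ?_⟩
      have h1 := hjv x hx
      have h2 : (p b).eval x ≠ 0 := (mem_Z.1 hx).2 b (by omega) hb0
      have h3 : 1 ≤ |(p b).eval x| := Int.one_le_abs h2
      rw [h, eval_mul, abs_mul] at h1
      calc |(p a).eval x| ≤ |(p a).eval x| * |(p b).eval x| :=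
            le_mul_of_one_le_right (abs_nonneg _) h3
        _ ≤ H * cnt j := h1
        _ ≤ H * cnt a := by
            have := hcnt a j ha.le
            exact mul_le_mul_of_nonneg_left (by exact_mod_cast this) (by positivity)
    have hCb : Ctrl b := by
      refine ⟨by omega, fun x hx => ?_⟩
      have h1 := hjv x hx
      have h2 : (p a).eval x ≠ 0 := (mem_Z.1 hx).2 a (by omega) ha0
      have h3 : 1 ≤ |(p a).eval x| := Int.one_le_abs h2
      rw [h, eval_mul, abs_mul] at h1
      calc |(p b).eval x| ≤ |(p a).eval x| * |(p b).eval x| :=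
            le_mul_of_one_le_left (abs_nonneg _) h3
        _ ≤ H * cnt j := h1
        _ ≤ H * cnt b := by
            have := hcnt b j hb.le
            exact mul_le_mul_of_nonneg_left (by exact_mod_cast this) (by positivity)
    have hda : (p a).natDegree < N := by
      by_contra hcon
      exact hmin a ha ⟨hCa, by omega⟩
    have hdb : (p b).natDegree < N := by
      by_contra hcon
      exact hmin b hb ⟨hCb, by omega⟩
    rw [h, natDegree_mul ha0 hb0] at hjdeg
    rcases le_total (p a).natDegree (p b).natDegree with hab | hab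
    · refine final b hCb hdb ?_
      calc N ≤ 2 * (p b).natDegree := by omega
        _ ≤ _ := Nat.mul_le_mul_right _ (le_max_left _ _)
    · refine final a hCa hda ?_
      calc N ≤ 2 * (p a).natDegree := by omega
        _ ≤ _ := Nat.mul_le_mul_right _ (le_max_left _ _)
  · exfalso
    have : (p j).natDegree ≤ 1 := by rw [h]; exact natDegree_linear_le
    omega
  · have hC : ∀ r, Ctrl (σ r) := by
      intro r
      refine ⟨by have := hσ r; omega, fun x hx => ?_⟩
      have h1 := hjv x hx
      have h2 : (p j).eval x = MvPolynomial.eval (fun r => (p (σ r)).eval x) h := by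
        rw [hpj]
        have h3 := MvPolynomial.aeval_def (fun r => p (σ r)) h
        have h4 : (Polynomial.evalRingHom x) (MvPolynomial.aeval (fun r => p (σ r)) h) =
            MvPolynomial.eval₂ ((Polynomial.evalRingHom x).comp (algebraMap ℤ ℤ[X]))
              ((Polynomial.evalRingHom x) ∘ fun r => p (σ r)) h := by
          rw [h3, MvPolynomial.hom_eval₂]
          rfl
        have h5 : (Polynomial.evalRingHom x).comp (algebraMap ℤ ℤ[X]) = RingHom.id ℤ := by
          exact RingHom.ext_int _ _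
        rw [h5] at h4
        exact h4
      have h3 := hco (fun r => (p (σ r)).eval x) r
      rw [← h2] at h3
      have h4 := hcnt' (σ r) j (hσ r) hjk hjA
      calc |(p (σ r)).eval x| ≤ |(p j).eval x| + H := h3
        _ ≤ H * cnt j + H := by linarith
        _ = H * ((cnt j + 1 : ℕ) : ℤ) := by push_cast; ring
        _ ≤ H * cnt (σ r) := mul_le_mul_of_nonneg_left (by exact_mod_cast h4) (by positivity)
    set D := Finset.univ.sup fun r => (p (σ r)).natDegree with hD
    have h1 : (p j).natDegree ≤ e * D := by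
      rw [hpj]
      refine (natDegree_aeval_le _ h D fun r => ?_).trans (Nat.mul_le_mul_right _ hdeg)
      exact Finset.le_sup (f := fun r => (p (σ r)).natDegree) (Finset.mem_univ r)
    have hDpos : 0 < D := by
      rcases Nat.eq_zero_or_pos D with h0 | h0
      · rw [h0, mul_zero] at h1; omega
      · exact h0
    have hne : (Finset.univ : Finset (Fin m)).Nonempty := by
      rw [Finset.nonempty_iff_ne_empty]
      intro h0
      rw [hD, h0, Finset.sup_empty] at hDpos
      exact absurd hDpos (lt_irrefl _)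
    obtain ⟨r, -, hr⟩ := Finset.exists_mem_eq_sup _ hne fun r => (p (σ r)).natDegree
    have hr' : (p (σ r)).natDegree = D := hr.symm
    refine final (σ r) (hC r) ?_ ?_
    · by_contra hcon
      exact hmin (σ r) (hσ r) ⟨hC r, by omega⟩
    · rw [hr']
      exact (hjdeg.trans h1).trans (Nat.mul_le_mul_right _ (le_max_right _ _))

theorem main (hp : IsProg n e H A p) {i : ℕ} (hi : i < n) :
    (p i).roots.toFinset.card ≤ 1 + A.card * (max 2 e * max 9 (Nat.log 2 (A.card * H))) := by
  classical
  have hsub : (p i).roots.toFinset ⊆ {0} ∪ (A.filter (· < n)).biUnion (Z p) := by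
    intro x hx
    rw [Multiset.mem_toFinset, mem_roots'] at hx
    obtain ⟨k, hki, hxk⟩ := exists_mem_Z hx.1 hx.2
    rcases eq_zero_or_mem hp (lt_of_le_of_lt hki hi) hxk with h | h
    · exact Finset.mem_union_left _ (Finset.mem_singleton.2 h)
    · refine Finset.mem_union_right _ (Finset.mem_biUnion.2 ⟨k, ?_, hxk⟩)
      exact Finset.mem_filter.2 ⟨h, lt_of_le_of_lt hki hi⟩
  calc (p i).roots.toFinset.card ≤ ({0} ∪ (A.filter (· < n)).biUnion (Z p)).card :=
        Finset.card_le_card hsub
    _ ≤ 1 + ((A.filter (· < n)).biUnion (Z p)).card := by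
        refine (Finset.card_union_le _ _).trans ?_
        rw [Finset.card_singleton]
    _ ≤ 1 + (A.filter (· < n)).card * (max 2 e * max 9 (Nat.log 2 (A.card * H))) := by
        refine Nat.add_le_add_left (Finset.card_biUnion_le_card_mul _ _ _ fun k hk => ?_) _
        exact card_Z_le hp (Finset.mem_filter.1 hk).2
    _ ≤ _ := by
        refine Nat.add_le_add_left (Nat.mul_le_mul_right _ ?_) _
        exact Finset.card_le_card (Finset.filter_subset _ _)

end

/-! ### Examples of coercive polynomials -/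

/-- Evaluation of a nonconstant integer polynomial in one variable whose coefficients are at most
`B` in absolute value is coercive with constant `B + 1`. -/
theorem coercive_poly_aux (B : ℕ) : ∀ (d : ℕ) (g : ℤ[X]), g.natDegree = d + 1 →
    (∀ k, |g.coeff k| ≤ B) → ∀ t : ℤ, |t| ≤ |g.eval t| + (B + 1) := by
  intro d
  induction d with
  | zero =>
    intro g hg hB t
    rcases le_or_gt |t| ((B : ℤ) + 1) with ht | ht
    · have := abs_nonneg (g.eval t); linarith
    obtain ⟨a, ha, b, rfl⟩ := natDegree_eq_one.1 hg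
    have h1 : 1 ≤ |a| := Int.one_le_abs ha
    have h2 : |b| ≤ B := by simpa using hB 0
    have h3 : (C a * X + C b : ℤ[X]).eval t = a * t + b := by simp
    rw [h3]
    have h4 : |a * t| ≤ |a * t + b| + |b| := by
      have := abs_sub (a * t + b) b
      simpa using this
    have h5 : |t| ≤ |a * t| := by
      rw [abs_mul]; exact le_mul_of_one_le_left (abs_nonneg _) h1
    linarith
  | succ d ih =>
    intro g hg hB t
    rcases le_or_gt |t| ((B : ℤ) + 1) with ht | ht
    · have := abs_nonneg (g.eval t); linarith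
    have hq : g.divX.natDegree = d + 1 := by rw [natDegree_divX_eq_natDegree_tsub_one, hg]; rfl
    have h1 := ih g.divX hq (fun k => by rw [coeff_divX]; exact hB _) t
    have h2 : 1 ≤ |g.divX.eval t| := by
      have : (0 : ℤ) < |g.divX.eval t| := by linarith
      linarith
    have h3 : g.eval t = g.divX.eval t * t + g.coeff 0 := by
      conv_lhs => rw [← divX_mul_X_add g]
      simp
    have h4 : |g.divX.eval t * t| ≤ |g.eval t| + |g.coeff 0| := by
      have := abs_sub (g.eval t) (g.coeff 0)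
      rw [h3] at this ⊢
      simpa using this
    have h5 : |t| ≤ |g.divX.eval t * t| := by
      rw [abs_mul]; exact le_mul_of_one_le_left (abs_nonneg _) h2
    have h6 := hB 0
    linarith

theorem coercive_poly (B : ℕ) (g : ℤ[X]) (hg : 1 ≤ g.natDegree) (hB : ∀ k, |g.coeff k| ≤ B)
    (t : ℤ) : |t| ≤ |g.eval t| + (B + 1) := by
  obtain ⟨d, hd⟩ : ∃ d, g.natDegree = d + 1 := ⟨g.natDegree - 1, by omega⟩
  exact coercive_poly_aux B d g hd hB t

/-- Sums of squares of the arguments are coercive with constant `0`. -/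
theorem coercive_sq {m : ℕ} (t : Fin m → ℤ) (r : Fin m) : |t r| ≤ |∑ s, t s ^ 2| := by
  have h1 : t r ^ 2 ≤ ∑ s, t s ^ 2 :=
    Finset.single_le_sum (f := fun s => t s ^ 2) (fun s _ => sq_nonneg (t s)) (Finset.mem_univ r)
  have h2 : |t r| ≤ t r ^ 2 := by
    rw [← sq_abs]
    rcases eq_or_ne (t r) 0 with h | h
    · simp [h]
    · have : 1 ≤ |t r| := Int.one_le_abs h
      nlinarith
  exact (h2.trans h1).trans (le_abs_self _)

/-! ### Programs with explicit gates -/

/-- The programs of the hand-in: `p 0, …, p (n - 1)` with free products and constants; the steps in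
`A` are linear polynomials, `g(p j)` with `g` of degree at most `e` and coefficients at most `H` in
absolute value, sums of squares of earlier steps, or `h` of earlier steps with `h` of degree at
most `e` and coercive with constant `H`. -/
def IsProgram (n e H : ℕ) (A : Finset ℕ) (p : ℕ → ℤ[X]) : Prop :=
  ∀ i < n, p i = X ∨ (∃ c : ℤ, p i = C c) ∨ (∃ j < i, ∃ k < i, p i = p j * p k) ∨
    (i ∈ A ∧ ((∃ a b : ℤ, p i = C a * X + C b) ∨
      (∃ j < i, ∃ g : ℤ[X], g.natDegree ≤ e ∧ (∀ k, |g.coeff k| ≤ H) ∧ p i = g.comp (p j)) ∨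
      (∃ (m : ℕ) (σ : Fin m → ℕ), (∀ r, σ r < i) ∧ p i = ∑ r, p (σ r) ^ 2) ∨
      ∃ (m : ℕ) (σ : Fin m → ℕ) (h : MvPolynomial (Fin m) ℤ), (∀ r, σ r < i) ∧
        h.totalDegree ≤ e ∧ Coercive H h ∧ p i = MvPolynomial.aeval (fun r => p (σ r)) h))

theorem Coercive.mono {m H H' : ℕ} (hH : H ≤ H') {h : MvPolynomial (Fin m) ℤ}
    (hh : Coercive H h) : Coercive H' h := fun t r => (hh t r).trans (by
      have : (H : ℤ) ≤ H' := by exact_mod_cast hH
      linarith)

theorem IsProgram.isProg {n e H : ℕ} {A : Finset ℕ} {p : ℕ → ℤ[X]} (hp : IsProgram n e H A p) :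
    IsProg n (max 2 e) (H + 1) A p := by
  intro i hi
  rcases hp i hi with h | h | h | ⟨hA, h | ⟨j, hj, g, hg, hgH, h⟩ | ⟨m, σ, hσ, h⟩ |
    ⟨m, σ, h, hσ, hdeg, hco, h'⟩⟩
  · exact Or.inl h
  · exact Or.inr (Or.inl h)
  · exact Or.inr (Or.inr (Or.inl h))
  · exact Or.inr (Or.inr (Or.inr ⟨hA, Or.inl h⟩))
  · rcases Nat.eq_zero_or_pos g.natDegree with h0 | h0
    · refine Or.inr (Or.inl ⟨g.coeff 0, ?_⟩)
      rw [h, eq_C_of_natDegree_eq_zero h0, C_comp, coeff_C_zero]
    · refine Or.inr (Or.inr (Or.inr ⟨hA, Or.inr ⟨1, fun _ => j,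
        Polynomial.aeval (MvPolynomial.X 0) g, fun _ => hj, ?_, ?_, ?_⟩⟩))
      · rw [aeval_eq_sum_range]
        refine (MvPolynomial.totalDegree_finsetSum _ _).trans (Finset.sup_le fun k hk => ?_)
        refine (MvPolynomial.totalDegree_smul_le _ _).trans ?_
        rw [MvPolynomial.totalDegree_X_pow]
        have := Finset.mem_range.1 hk
        have := le_max_right 2 e
        omega
      · intro t r
        have h1 := coercive_poly H g h0 hgH (t 0)
        have h2 : MvPolynomial.eval t (Polynomial.aeval (MvPolynomial.X 0) g) = g.eval (t 0) := by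
          rw [aeval_eq_sum_range, eval_eq_sum_range, map_sum]
          refine Finset.sum_congr rfl fun k _ => ?_
          simp
        rw [h2, Subsingleton.elim r 0]
        push_cast
        exact h1
      · rw [h, Polynomial.comp, eval₂_eq_sum_range, aeval_eq_sum_range, map_sum]
        refine Finset.sum_congr rfl fun k _ => ?_
        simp
  · refine Or.inr (Or.inr (Or.inr ⟨hA, Or.inr ⟨m, σ, ∑ r, MvPolynomial.X r ^ 2, hσ, ?_, ?_, ?_⟩⟩))
    · refine (MvPolynomial.totalDegree_finsetSum _ _).trans (Finset.sup_le fun k hk => ?_)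
      rw [MvPolynomial.totalDegree_X_pow]
      exact le_max_left _ _
    · intro t r
      have h1 := coercive_sq t r
      have h2 : MvPolynomial.eval t (∑ r, MvPolynomial.X r ^ 2 : MvPolynomial (Fin m) ℤ) =
          ∑ s, t s ^ 2 := by simp
      rw [h2]
      push_cast
      have : (0 : ℤ) ≤ H := by positivity
      linarith
    · rw [h]; simp
  · exact Or.inr (Or.inr (Or.inr ⟨hA, Or.inr ⟨m, σ, h, hσ, hdeg.trans (le_max_right _ _),
      hco.mono (Nat.le_succ _), h'⟩⟩))

end Pool.Agent.W920.Tau
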